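import Mathlib
import Pool.Agent.V11112.TS3

set_option autoImplicit false

open Filter Topology

/-!
# MP_256cd6_an, Q1 and Q2: entropies of hom Markov tree-shifts are not dense in `I_d`

For every `d ≥ 2` there is an open subinterval of `I_d = ((d-1)/d log 2, (d-1) log 2)`, with right
endpoint `(1 - 1/d²) log 2`, which contains no entropy of a hom Markov tree-shift on the `d`-tree.
-/

namespace Pool.Agent.Results.MP_256cd6_an.EntropyGap

/-- The hom Markov tree-shift `T_M` on the `d`-tree: nodes are words over `Fin d`, the children of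
`g` are the words `g ++ [i]`. -/
def homTreeShift (d : ℕ) {k : ℕ} (M : Matrix (Fin k) (Fin k) ℕ) : Set (List (Fin d) → Fin k) :=
  {t | ∀ (g : List (Fin d)) (i : Fin d), M (t g) (t (g ++ [i])) = 1}

/-- The number `p_M(n)` of distinct restrictions of elements of `T_M` to the set of words of
length at most `n`. -/
noncomputable def patternCount (d : ℕ) {k : ℕ} (M : Matrix (Fin k) (Fin k) ℕ) (n : ℕ) : ℕ :=
  ((fun (t : List (Fin d) → Fin k) (g : {g : List (Fin d) // g.length ≤ n}) => t g.1) ''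
    homTreeShift d M).ncard

/-- `h` is the entropy of `T_M`: `log p_M(n) / |Δ_n|` tends to `h`, where
`|Δ_n| = (d^(n+1) - 1) / (d - 1)`. -/
def IsEntropy (d : ℕ) {k : ℕ} (M : Matrix (Fin k) (Fin k) ℕ) (h : ℝ) : Prop :=
  Tendsto (fun n : ℕ => Real.log (patternCount d M n) / (((d : ℝ) ^ (n + 1) - 1) / ((d : ℝ) - 1)))
    atTop (𝓝 h)

/-- The matrix has entries in `{0,1}`. -/
def IsBinary {k : ℕ} (M : Matrix (Fin k) (Fin k) ℕ) : Prop := ∀ i j, M i j = 0 ∨ M i j = 1

/-- The matrix is irreducible. -/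
def IsIrred {k : ℕ} (M : Matrix (Fin k) (Fin k) ℕ) : Prop :=
  ∀ i j, ∃ m : ℕ, 1 ≤ m ∧ 0 < (M ^ m) i j

/-- The set of entropies of hom Markov tree-shifts on the `d`-tree. -/
def entropies (d : ℕ) : Set ℝ :=
  {h | ∃ (k : ℕ) (M : Matrix (Fin k) (Fin k) ℕ), 1 ≤ k ∧ IsBinary M ∧
    (homTreeShift d M).Nonempty ∧ IsEntropy d M h}

/-- The set of entropies coming from irreducible matrices. -/
def irredEntropies (d : ℕ) : Set ℝ :=
  {h | ∃ (k : ℕ) (M : Matrix (Fin k) (Fin k) ℕ), 1 ≤ k ∧ IsBinary M ∧ IsIrred M ∧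
    (homTreeShift d M).Nonempty ∧ IsEntropy d M h}

/-- The interval `I_d`. -/
noncomputable def interval (d : ℕ) : Set ℝ :=
  Set.Ioo (((d : ℝ) - 1) / d * Real.log 2) (((d : ℝ) - 1) * Real.log 2)

theorem irred_subset (d : ℕ) : irredEntropies d ⊆ entropies d := by
  rintro h ⟨k, M, hk, hb, -, hne, he⟩
  exact ⟨k, M, hk, hb, hne, he⟩

open Pool.Agent.V11112.TS in
theorem result (d : ℕ) (hd : 2 ≤ d) :
    (∃ a : ℝ, a < (1 - 1 / (d : ℝ) ^ 2) * Real.log 2 ∧
      Set.Ioo a ((1 - 1 / (d : ℝ) ^ 2) * Real.log 2) ⊆ interval d ∧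
      Disjoint (Set.Ioo a ((1 - 1 / (d : ℝ) ^ 2) * Real.log 2)) (entropies d)) ∧
    ¬ (interval d ⊆ closure (entropies d)) ∧ ¬ (interval d ⊆ closure (irredEntropies d)) := by
  have hd2 : (2 : ℝ) ≤ d := by exact_mod_cast hd
  have hd0 : (0 : ℝ) < d := by linarith
  have hd1 : (0 : ℝ) < (d : ℝ) - 1 := by linarith
  have hlog2 : 0 < Real.log 2 := Real.log_pos (by norm_num)
  obtain ⟨ell, hell, hgap⟩ := gap hd
  set β : ℝ := (1 - 1 / (d : ℝ) ^ 2) * Real.log 2 with hβ
  have hβ' : β = ((d : ℝ) - 1) / d * ((1 + 1 / (d : ℝ)) * Real.log 2) := by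
    rw [hβ]
    field_simp
    ring
  have hfrac : 0 < ((d : ℝ) - 1) / d := by positivity
  have h1 : ell * ((d : ℝ) - 1) / d < β := by
    rw [hβ', mul_div_assoc, mul_comm ell]
    exact mul_lt_mul_of_pos_left hell hfrac
  have h2 : ((d : ℝ) - 1) / d * Real.log 2 < β := by
    rw [hβ']
    apply mul_lt_mul_of_pos_left _ hfrac
    have : 0 < 1 / (d : ℝ) := by positivity
    nlinarith
  have h3 : β ≤ ((d : ℝ) - 1) * Real.log 2 := by
    rw [hβ]
    apply mul_le_mul_of_nonneg_right _ hlog2.le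
    have : 0 < 1 / (d : ℝ) ^ 2 := by positivity
    linarith
  have hmain : ∃ a : ℝ, a < β ∧ Set.Ioo a β ⊆ interval d ∧
      Disjoint (Set.Ioo a β) (entropies d) := by
    refine ⟨max (ell * ((d : ℝ) - 1) / d) (((d : ℝ) - 1) / d * Real.log 2), max_lt h1 h2, ?_, ?_⟩
    · intro x hx
      exact ⟨(le_max_right _ _).trans_lt hx.1, hx.2.trans_le h3⟩
    · rw [Set.disjoint_left]
      rintro x hx ⟨k, M, -, -, hne, he⟩
      have := hgap (Fin k) (fun i j => M i j = 1) hne x he
      rcases this with h | h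
      · have := (le_max_left (ell * ((d : ℝ) - 1) / d)
          (((d : ℝ) - 1) / d * Real.log 2)).trans_lt hx.1
        linarith
      · have := hx.2
        linarith
  have hnd : ¬ (interval d ⊆ closure (entropies d)) := by
    obtain ⟨a, ha, hsub, hdis⟩ := hmain
    intro hcl
    have hmid : (a + β) / 2 ∈ Set.Ioo a β := ⟨by linarith, by linarith⟩
    have hmem := hcl (hsub hmid)
    rw [mem_closure_iff] at hmem
    obtain ⟨x, hx1, hx2⟩ := hmem (Set.Ioo a β) isOpen_Ioo hmid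
    exact Set.disjoint_left.1 hdis hx1 hx2
  exact ⟨hmain, hnd, fun h => hnd (h.trans (closure_mono (irred_subset d)))⟩

end Pool.Agent.Results.MP_256cd6_an.EntropyGap
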